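import Pool.Agent.Helper26.DA.Goals

/-!
# Packet DA-TOT: the total operators
-/

set_option autoImplicit false

namespace Pool.Agent.Helper34.DA

open Pool.Agent.Helper26.DA

universe u v

section
variable {V : ℕ → Type u} [∀ i, AddCommGroup (V i)]

/-- the sign operator -/
def sgn : AddMonoid.End (∀ i, V i) where
  toFun w := fun i => ((-1 : ℤ) ^ i) • w i
  map_zero' := by
    ext i
    simp
  map_add' x y := by
    ext i
    simp

/-- the total lowering operator -/
def low (D : ∀ i, V (i + 1) →+ V i) : AddMonoid.End (∀ i, V i) where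
  toFun w := fun i => D i (w (i + 1))
  map_zero' := by
    ext i
    simp
  map_add' x y := by
    ext i
    simp

/-- the raising function -/
def raF (h : ∀ i, V i →+ V (i + 1)) (w : ∀ i, V i) : ∀ i, V i
  | 0 => 0
  | (i + 1) => h i (w i)

/-- the total raising operator -/
def rai (h : ∀ i, V i →+ V (i + 1)) : AddMonoid.End (∀ i, V i) where
  toFun w := raF h w
  map_zero' := by
    ext i
    cases i <;> simp [raF]
  map_add' x y := by
    ext i
    cases i <;> simp [raF]

theorem sgn_apply (w : ∀ i, V i) (i : ℕ) : sgn w i = ((-1 : ℤ) ^ i) • w i := rfl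

theorem low_apply (D : ∀ i, V (i + 1) →+ V i) (w : ∀ i, V i) (i : ℕ) :
    low D w i = D i (w (i + 1)) := rfl

theorem rai_zero (h : ∀ i, V i →+ V (i + 1)) (w : ∀ i, V i) : rai h w 0 = 0 := rfl

theorem rai_succ (h : ∀ i, V i →+ V (i + 1)) (w : ∀ i, V i) (i : ℕ) :
    rai h w (i + 1) = h i (w i) := rfl

theorem mulA (X Y : AddMonoid.End (∀ i, V i)) (w : ∀ i, V i) : (X * Y) w = X (Y w) := rfl

theorem addA (X Y : AddMonoid.End (∀ i, V i)) (w : ∀ i, V i) : (X + Y) w = X w + Y w := rfl

theorem cA {B : Type v} [CommRing B] [∀ i, Module B (V i)] (b : B) (w : ∀ i, V i) :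
    (Module.toAddMonoidEnd B (∀ i, V i) b) w = b • w := rfl

theorem sgn_mul_sgn : (sgn : AddMonoid.End (∀ i, V i)) * sgn = 1 := by
  ext w i
  rw [mulA, sgn_apply, sgn_apply, smul_smul, ← mul_pow]
  simp

/-- conjugation by the sign operator -/
def eps : AddMonoid.End (∀ i, V i) →+* AddMonoid.End (∀ i, V i) where
  toFun X := sgn * X * sgn
  map_one' := by rw [mul_one, sgn_mul_sgn]
  map_mul' X Y := by
    calc sgn * (X * Y) * sgn = sgn * X * 1 * Y * sgn := by noncomm_ring
      _ = sgn * X * (sgn * sgn) * Y * sgn := by rw [sgn_mul_sgn]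
      _ = sgn * X * sgn * (sgn * Y * sgn) := by noncomm_ring
  map_zero' := by rw [mul_zero, zero_mul]
  map_add' X Y := by rw [mul_add, add_mul]

theorem eps_apply (X : AddMonoid.End (∀ i, V i)) : eps X = sgn * X * sgn := rfl

end

theorem gTOT : G_TOT.{u, v} := by
  intro hR B _ V _ _ e D c h p hV h0 h1 l i v
  have key := hR (AddMonoid.End (∀ i, V i)) B (Module.toAddMonoidEnd B (∀ i, V i)) eps e
    (fun l => low (fun i => (D l i).toAddMonoidHom)) (fun j => rai (h j)) c ?_ ?_ ?_ ?_ (p + 1) l ?_
  · have h2 := DFunLike.congr_fun key (Pi.single i v)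
    have h3 := congrFun h2 i
    have h4 : (Module.toAddMonoidEnd B (∀ i, V i)
        (Matrix.of fun i j : Fin (p + 1) => c i (l j)).det (Pi.single i v)) i =
        (Matrix.of fun i j : Fin (p + 1) => c i (l j)).det • v := by
      rw [cA, Pi.smul_apply, Pi.single_eq_same]
    rw [← h4, h3]
    rfl
  · intro b
    ext w i
    rw [eps_apply, mulA, mulA, sgn_apply]
    simp only [cA, Pi.smul_apply, sgn_apply]
    rw [smul_comm b, smul_smul, ← mul_pow]
    simp
  · intro j
    ext w i
    rw [eps_apply, mulA, mulA, sgn_apply]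
    rcases i with _ | i
    · rw [rai_zero, smul_zero]
      change (0 : V 0) = -(0 : V 0)
      rw [neg_zero]
    · rw [rai_succ, sgn_apply, map_zsmul, smul_smul]
      change _ = -(h j i (w i))
      rw [pow_succ, mul_right_comm, ← mul_pow]
      simp
  · intro l b
    ext w i
    simp only [mulA, low_apply, cA, Pi.smul_apply]
    exact (D l i).map_smul b (w (i + 1))
  · intro j l
    ext w i
    rcases i with _ | i
    · simp only [addA, mulA, Pi.add_apply, low_apply, rai_zero, rai_succ, cA, Pi.smul_apply,
        add_zero]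
      exact h0 j l (w 0)
    · simp only [addA, mulA, Pi.add_apply, low_apply, rai_succ, cA, Pi.smul_apply]
      exact h1 j l i (w (i + 1))
  · have hz : ∀ (m : ℕ) (w : ∀ i, V i) (i : ℕ), i < m →
        (hpr (fun j => (rai (h j) : AddMonoid.End (∀ i, V i))) m) w i = 0 := by
      intro m
      induction m with
      | zero => intro w i hi; omega
      | succ m ih =>
        intro w i hi
        rw [hpr, mulA]
        rcases i with _ | i
        · exact rai_zero _ _
        · rw [rai_succ, ih w i (by omega), map_zero]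
    ext w i
    by_cases hi : i < p + 1
    · rw [hz (p + 1) w i hi]
      rfl
    · have := hV i (by omega)
      exact Subsingleton.elim _ _

end Pool.Agent.Helper34.DA
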